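import Pool.Agent.helper48.DH.SpecY

set_option autoImplicit false

open Filter Topology MeasureTheory
open scoped commutatorElement

namespace Pool.Agent.helper90.DH

open Pool.Agent.helper64.D2

theorem yEM_ci (s : ℕ) (k : ℤ) (x : ℝ) (hx : x ∈ cell s k) : ci s x = k := by
  have hP : (0 : ℝ) < 2 ^ s := by positivity
  unfold cell at hx
  unfold ci
  rw [Int.floor_eq_iff]
  obtain ⟨h1, h2⟩ := hx
  rw [div_le_iff₀ hP] at h1
  rw [lt_div_iff₀ hP] at h2
  constructor <;> linarith

theorem yEM_int (a b : ℝ) (hab : a ≤ b) (g : ℝ → ℝ) : ∫ t in Set.Ico a b, g t = ∫ t in a..b, g t := by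
  rw [intervalIntegral.integral_of_le hab, integral_Ico_eq_integral_Ioo, integral_Ioc_eq_integral_Ioo]

theorem yEM_mom (s : ℕ) (k : ℤ) (f : ℝ → ℝ) (hf : Integrable f) (hf2 : Integrable (fun t => t * f t)) :
    ((∫ t in cell s k, Es s f t) = ∫ t in cell s k, f t) ∧ (∫ t in cell s k, t * Es s f t) = ∫ t in cell s k, t * f t := by
  have hP : (0 : ℝ) < 2 ^ s := by positivity
  have hms : MeasurableSet (cell s k) := measurableSet_Ico
  set P : ℝ := 2 ^ s with hPdef
  set m : ℝ := ((k : ℝ) + 1 / 2) / P with hm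
  set I0 : ℝ := ∫ t in cell s k, f t with hI0
  set I1 : ℝ := ∫ t in cell s k, (t - m) * f t with hI1
  have hab : (k : ℝ) / P ≤ ((k : ℝ) + 1) / P := by gcongr; linarith
  have hEs : ∀ t ∈ cell s k, Es s f t = P * I0 + 12 * P ^ 3 * I1 * (t - m) := by
    intro t ht
    have h1 := yEM_ci s k t ht
    unfold Es mid
    rw [h1, ← hI0, ← hPdef, ← hm, ← hI1, show (2 : ℝ) ^ (3 * s) = P ^ 3 by rw [hPdef, ← pow_mul, Nat.mul_comm]]
    ring
  have hI1' : I1 = (∫ t in cell s k, t * f t) - m * I0 := by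
    rw [hI1, hI0, ← integral_const_mul, ← integral_sub hf2.integrableOn (hf.const_mul m).integrableOn]
    apply integral_congr_ae
    filter_upwards with t
    ring
  constructor
  · rw [setIntegral_congr_fun hms hEs]
    unfold cell
    rw [← hPdef, yEM_int _ _ hab]
    have h2 : ∀ t ∈ Set.uIcc ((k : ℝ) / P) (((k : ℝ) + 1) / P),
        HasDerivAt (fun t => P * I0 * t + 12 * P ^ 3 * I1 * ((t - m) ^ 2 / 2)) (P * I0 + 12 * P ^ 3 * I1 * (t - m)) t := by
      intro t _
      have h3 : HasDerivAt (fun t : ℝ => (t - m) ^ 2 / 2) (t - m) t := by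
        have := (((hasDerivAt_id t).sub_const m).fun_pow 2).div_const 2
        simpa using this
      have h4 : HasDerivAt (fun t : ℝ => P * I0 * t) (P * I0) t := by
        simpa using (hasDerivAt_id t).const_mul (P * I0)
      exact h4.add (h3.const_mul _)
    rw [intervalIntegral.integral_eq_sub_of_hasDerivAt h2 (by
      apply Continuous.intervalIntegrable
      fun_prop)]
    rw [hm]
    field_simp
    ring
  · rw [setIntegral_congr_fun (g := fun t => t * (P * I0 + 12 * P ^ 3 * I1 * (t - m))) hms (fun t ht => by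
      show t * Es s f t = _
      rw [hEs t ht])]
    have h5 : (∫ t in cell s k, t * f t) = I1 + m * I0 := by linarith
    rw [h5]
    unfold cell
    rw [← hPdef, yEM_int _ _ hab]
    have h2 : ∀ t ∈ Set.uIcc ((k : ℝ) / P) (((k : ℝ) + 1) / P),
        HasDerivAt (fun t => P * I0 * (t ^ 2 / 2) + 12 * P ^ 3 * I1 * (t ^ 3 / 3 - m * (t ^ 2 / 2))) (t * (P * I0 + 12 * P ^ 3 * I1 * (t - m))) t := by
      intro t _
      have h3 : HasDerivAt (fun t : ℝ => t ^ 2 / 2) t t := by
        have := ((hasDerivAt_id t).fun_pow 2).div_const 2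
        simpa using this
      have h4 : HasDerivAt (fun t : ℝ => t ^ 3 / 3) (t ^ 2) t := by
        have := ((hasDerivAt_id t).fun_pow 3).div_const 3
        simpa using this
      have h6 := (h3.const_mul (P * I0)).add ((h4.sub (h3.const_mul m)).const_mul (12 * P ^ 3 * I1))
      have h7 : P * I0 * t + 12 * P ^ 3 * I1 * (t ^ 2 - m * t) = t * (P * I0 + 12 * P ^ 3 * I1 * (t - m)) := by ring
      rw [h7] at h6
      exact h6
    rw [intervalIntegral.integral_eq_sub_of_hasDerivAt h2 (by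
      apply Continuous.intervalIntegrable
      fun_prop)]
    rw [hm]
    field_simp
    ring

theorem yEM_bm (f : ℝ → ℝ) (hf : BM f) : Integrable f := by
  obtain ⟨hm, ⟨B, hB⟩, h0⟩ := hf
  have h1 : IntegrableOn f (Set.Icc (0 : ℝ) 1) :=
    Integrable.of_bound hm.aestronglyMeasurable B (ae_of_all _ fun x => by simpa using hB x)
  rwa [integrableOn_iff_integrable_of_support_subset] at h1
  intro x hx
  by_contra h
  exact hx (h0 x h)

theorem yEM_bm2 (f : ℝ → ℝ) (hf : BM f) : BM (fun t => t * f t) := by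
  obtain ⟨hm, ⟨B, hB⟩, h0⟩ := hf
  refine ⟨measurable_id.mul hm, ⟨B, fun x => ?_⟩, fun x hx => by show x * f x = 0; rw [h0 x hx, mul_zero]⟩
  have hB0 : 0 ≤ B := (abs_nonneg _).trans (hB 0)
  by_cases hx : x ∈ Set.Icc (0 : ℝ) 1
  · rw [abs_mul, abs_of_nonneg hx.1]
    calc x * |f x| ≤ 1 * B := mul_le_mul hx.2 (hB x) (abs_nonneg _) zero_le_one
      _ = B := one_mul B
  · show |x * f x| ≤ B
    rw [h0 x hx, mul_zero, abs_zero]
    exact hB0

theorem yEM : yEM_stmt := by
  refine ⟨fun s f hf k => yEM_mom s k f (yEM_bm f hf) (yEM_bm _ (yEM_bm2 f hf)), ?_⟩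
  intro s f hf h0 k
  obtain ⟨h1, h2⟩ := yEM_mom s k f (yEM_bm f hf) (yEM_bm _ (yEM_bm2 f hf))
  simp only [h0, mul_zero, integral_zero] at h1 h2
  exact ⟨h1.symm, h2.symm⟩

end Pool.Agent.helper90.DH
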